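import Pool.Agent.Run7.h594.UM.P7b

/-!
# UM, piece P7 (helper594): `μ = 0` for `ℚ`
-/

set_option autoImplicit false

namespace Pool.Agent.Run7.h594.UM

open Pool.Agent.Q60.MU NumberField IntermediateField
open scoped Pointwise

/-- **Minkowski.** A finite Galois extension of `ℚ` all of whose inertia groups are trivial is `ℚ`. -/
theorem finrank_eq_one (M : IntermediateField ℚ Qb) (hfd : FiniteDimensional ℚ M)
    (hgal : IsGalois ℚ M) (hI : ∀ A, ∀ σ ∈ inertia A, ∀ x ∈ M, σ x = x) :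
    Module.finrank ℚ M = 1 := by
  have hnf : NumberField M := ⟨⟩
  by_contra hne
  have := IsGaloisGroup.of_isFractionRing Gal(M/ℚ) ℤ (𝓞 M) ℚ M
  obtain ⟨P, hPmax, hP⟩ := NumberField.exists_not_isUnramifiedAt_int (𝒪 := 𝓞 M) (K := M) hne
  have hP0 : P ≠ ⊥ := Ideal.IsMaximal.ne_bot_of_isIntegral_int _
  have hcard : Nat.card (P.inertia Gal(M/ℚ)) ≠ 1 := by
    rw [Ideal.card_inertia_eq_ramificationIdxIn (P.under ℤ) P,
      Ideal.ramificationIdxIn_eq_ramificationIdx (P.under ℤ) P Gal(M/ℚ)]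
    rw [Ne, Ideal.ramificationIdx_eq_one_iff]
    exact hP
  have hnt : P.inertia Gal(M/ℚ) ≠ ⊥ := by
    intro h
    exact hcard ((Subgroup.card_eq_one).2 h)
  obtain ⟨⟨g, hg⟩, hg1⟩ := Subgroup.ne_bot_iff_exists_ne_one.1 hnt
  have hn : Normal ℚ Qb := inferInstance
  have hlift : ∀ x : M, (g.liftNormal Qb) (x : Qb) = ((g x : M) : Qb) := fun x =>
    AlgEquiv.liftNormal_commutes g Qb x
  obtain ⟨A, σ, hσ, hσM⟩ := lift_inertia M hfd P hP0 (g.liftNormal Qb) (fun a => g • a)
    (fun a => hg a) (fun a => by rw [hlift]; rfl)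
  apply hg1
  apply Subtype.ext
  ext x
  have h1 := hσM x x.2
  rw [hI A σ hσ x x.2, hlift] at h1
  change ((g x : M) : Qb) = ((x : M) : Qb)
  exact h1.symm

theorem degLe_bot (p : ℕ) : DegLe p (⊥ : IntermediateField ℚ Qb) 1 := by
  intro M _ hfd hstab _ _ hI
  have htop : ∀ σ : Gal(Qb/ℚ), σ ∈ (⊥ : IntermediateField ℚ Qb).fixingSubgroup := by
    intro σ
    rw [IntermediateField.fixingSubgroup_bot]
    trivial
  have hnorm : M.fixingSubgroup.Normal := by
    refine ⟨fun f hf g => ?_⟩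
    rw [IntermediateField.mem_fixingSubgroup_iff] at hf ⊢
    intro x hx
    show g (f (g⁻¹ x)) = x
    rw [hf _ (hstab _ (htop _) x hx)]
    show (g * g⁻¹) x = x
    rw [mul_inv_cancel]
    rfl
  have hgal : IsGalois ℚ M := (InfiniteGalois.normal_iff_isGalois M).1 hnorm
  rw [finrank_eq_one M hfd hgal fun A σ hσ x hx => hI A σ hσ (htop σ) x hx, one_mul]
  exact Module.finrank_pos

theorem onePrime_bot {p : ℕ} (hp : p.Prime) :
    Pool.Agent.W5h77.MB.OnePrime p (⊥ : IntermediateField ℚ Qb) := by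
  intro A B hA hB
  let K := (⊥ : IntermediateField ℚ Qb)
  have hinj : Function.Injective (algebraMap ℤ K) := Int.cast_injective
  have hF : IsFractionRing ℤ K := by
    refine IsFractionRing.of_field (R := ℤ) (K := K) fun z => ?_
    obtain ⟨q, hq⟩ := IntermediateField.mem_bot.1 z.2
    refine ⟨q.num, q.den, ?_⟩
    apply Subtype.ext
    rw [← hq]
    push_cast
    conv_lhs => rw [← Rat.num_div_den q]
    rw [map_div₀]
    simp
  have hmem : ∀ (C : ValuationSubring K) (a : ℤ), algebraMap ℤ K a ∈ C := by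
    intro C a
    exact intCast_mem C a
  have htop : ∀ C : ValuationSubring K, (p : K) ∈ C.nonunits → C ≠ ⊤ := by
    intro C hC htop
    rw [ValuationSubring.mem_nonunits_iff_or] at hC
    rcases hC with h3 | h3
    · exact hp.ne_zero (by exact_mod_cast h3)
    · exact h3 (by rw [htop]; trivial)
  have hcent : ∀ C : ValuationSubring K, (p : K) ∈ C.nonunits →
      Pool.Agent.H639R3.cent C (hmem C) = Ideal.span {(p : ℤ)} := by
    intro C hC
    have h1 : (Ideal.span {(p : ℤ)}).IsMaximal := by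
      have : Fact p.Prime := ⟨hp⟩
      exact Int.ideal_span_isMaximal_of_prime p
    have h2 : Ideal.span {(p : ℤ)} ≤ Pool.Agent.H639R3.cent C (hmem C) := by
      rw [Ideal.span_singleton_le_iff_mem, Pool.Agent.H639R3.mem_cent]
      rw [ValuationSubring.mem_nonunits_iff] at hC
      simpa using hC
    refine (h1.eq_of_le ?_ h2).symm
    rw [Ne, Ideal.eq_top_iff_one, Pool.Agent.H639R3.mem_cent, map_one, map_one]
    exact lt_irrefl _
  exact Pool.Agent.H639R3.eq_of_cent_eq A B (hmem A) (hmem B) (htop A hA) (htop B hB)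
    ((hcent A hA).trans (hcent B hB).symm)

theorem P7 : Pool.Agent.Run7.h759.UM.S_base := by
  intro p hp m R hR
  have hfdR := Pool.Agent.W5h77.MB.layer_fd hp.out hR
  have hgR := Pool.Agent.W5h77.MB.layer_galois hp.out hR
  have h := Pool.Agent.W5h77.MB.one_prime (p := p) (⊥ : IntermediateField ℚ Qb)
    (onePrime_bot hp.out) (degLe_bot p) hR
  rwa [bot_sup_eq] at h

end Pool.Agent.Run7.h594.UM
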