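import Pool.Agent.Run7.h594.UM.P2

/-!
# UM, piece P1 (helper594)
-/

set_option autoImplicit false

namespace Pool.Agent.Run7.h594.UM

open Subgroup Pool.Agent.Q60.MU Pool.Agent.Run7.h759.UM
open scoped commutatorElement

/-- an endomorphism of finite order prime to `p` of an elementary abelian `p`-group: the kernel of
`(h - 1) ^ 2` is the kernel of `h - 1` -/
theorem unip {A : Type} [Group A] (hc : ∀ a b : A, a * b = b * a) (p n : ℕ) (hp : p.Prime)
    (hn : ¬ p ∣ n) (hA : ∀ a : A, a ^ p = 1) (h : A →* A) (hh : ∀ a, h^[n] a = a) (x : A)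
    (hx : h (h x * x⁻¹) = h x * x⁻¹) : h x = x := by
  obtain ⟨z, hz⟩ : ∃ z, z = h x * x⁻¹ := ⟨_, rfl⟩
  rw [← hz] at hx
  have hx1 : h x = z * x := by
    rw [hz]
    group
  have h1 : ∀ j : ℕ, h^[j] x = z ^ j * x := by
    intro j
    induction j with
    | zero => simp
    | succ j ih =>
      rw [Function.iterate_succ_apply', ih, map_mul, map_pow, hx, hx1, ← mul_assoc, ← pow_succ]
  have h2 : z ^ n = 1 := by
    have h3 := h1 n
    rw [hh x] at h3
    have h4 : z ^ n * x = 1 * x := by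
      rw [one_mul]
      exact h3.symm
    exact mul_right_cancel h4
  have h3 : z ^ p = 1 := hA z
  have h4 : orderOf z ∣ n := orderOf_dvd_of_pow_eq_one h2
  have h5 : orderOf z ∣ p := orderOf_dvd_of_pow_eq_one h3
  have h6 : orderOf z = 1 := by
    rcases (Nat.dvd_prime hp).1 h5 with h6 | h6
    · exact h6
    · rw [h6] at h4
      exact absurd h4 hn
  have h7 : z = 1 := orderOf_eq_one_iff.1 h6
  rw [hx1, h7, one_mul]

theorem P1 : S_transfer := by
  classical
  intro 𝔾 _ _ _ p hp Ω I K K' h n C hKK hpK hKo hhK hhK' hn hpn hR W hWK hWo hW0 hg hWh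
  have hN : (W.subgroupOf K).Normal := normal_of_gens hWK hg
  have hhc : ∀ x ∈ K, ⁅h, x⁆ ∈ K := by
    intro x hx
    rw [commutatorElement_def]
    exact K.mul_mem (hhK x hx) (K.inv_mem hx)
  have hconj : ∀ {a b : 𝔾}, a ∈ K → b ∈ W → a * b * a⁻¹ ∈ W := fun ha hb =>
    conj_mem_of_gens hWK hg ha hb
  let W₁ : Subgroup 𝔾 :=
    { carrier := {x | x ∈ K ∧ ⁅h, x⁆ ∈ W}
      one_mem' := ⟨K.one_mem, by rw [commutatorElement_one_right]; exact W.one_mem⟩
      mul_mem' := by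
        rintro a b ⟨ha, ha'⟩ ⟨hb, hb'⟩
        refine ⟨K.mul_mem ha hb, ?_⟩
        have h1 : ⁅h, a * b⁆ = ⁅h, a⁆ * (a * ⁅h, b⁆ * a⁻¹) := by
          simp only [commutatorElement_def]
          group
        rw [h1]
        exact W.mul_mem ha' (hconj ha hb')
      inv_mem' := by
        rintro a ⟨ha, ha'⟩
        refine ⟨K.inv_mem ha, ?_⟩
        have h1 : ⁅h, a⁻¹⁆ = a⁻¹ * ⁅h, a⁆⁻¹ * (a⁻¹)⁻¹ := by
          simp only [commutatorElement_def]
          group
        rw [h1]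
        exact hconj (K.inv_mem ha) (W.inv_mem ha') }
  have hW1K : W₁ ≤ K := fun x hx => hx.1
  have hWW1 : W ≤ W₁ := by
    intro x hx
    refine ⟨hWK hx, ?_⟩
    rw [commutatorElement_def]
    exact W.mul_mem (hWh x hx) (W.inv_mem hx)
  refine ⟨W₁, hWW1, hW1K, fun x hx => hx.2, ?_⟩
  -- the quotient
  let mk : K →* K ⧸ W.subgroupOf K := QuotientGroup.mk' (W.subgroupOf K)
  have hmk1 : ∀ x : K, mk x = 1 ↔ (x : 𝔾) ∈ W := by
    intro x
    have h1 : mk x = 1 ↔ x ∈ W.subgroupOf K := QuotientGroup.eq_one_iff x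
    rw [h1, mem_subgroupOf]
  have hmks : Function.Surjective mk := QuotientGroup.mk'_surjective _
  have hcomm : ∀ a b : K ⧸ W.subgroupOf K, a * b = b * a := by
    intro a b
    obtain ⟨x, rfl⟩ := hmks a
    obtain ⟨y, rfl⟩ := hmks b
    have h1 : mk (x * y * (y * x)⁻¹) = 1 := by
      rw [hmk1]
      have h2 : ((x * y * (y * x)⁻¹ : K) : 𝔾) = ⁅(x : 𝔾), (y : 𝔾)⁆ := by
        rw [commutatorElement_def]
        push_cast
        group
      rw [h2]
      exact comm_mem_of_gens hg x.2 y.2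
    rw [map_mul, map_inv, mul_inv_eq_one] at h1
    rw [← map_mul, ← map_mul]
    exact h1
  have hexp : ∀ a : K ⧸ W.subgroupOf K, a ^ p = 1 := by
    intro a
    obtain ⟨x, rfl⟩ := hmks a
    rw [← map_pow, hmk1]
    push_cast
    exact pow_mem_of_gens hg x.2
  have hfi : (W.subgroupOf K).FiniteIndex := ⟨hW0⟩
  have hfin : Finite (K ⧸ W.subgroupOf K) := inferInstance
  -- conjugation by `h`
  let ch : K →* K :=
    { toFun := fun x => ⟨h * x * h⁻¹, hhK x x.2⟩
      map_one' := by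
        apply Subtype.ext
        push_cast
        group
      map_mul' := by
        intro x y
        apply Subtype.ext
        push_cast
        group }
  have hle : W.subgroupOf K ≤ (W.subgroupOf K).comap ch := by
    intro x hx
    rw [mem_subgroupOf] at hx
    rw [mem_comap, mem_subgroupOf]
    exact hWh _ hx
  let hb : (K ⧸ W.subgroupOf K) →* (K ⧸ W.subgroupOf K) :=
    QuotientGroup.map (W.subgroupOf K) (W.subgroupOf K) ch hle
  have hbm : ∀ x : K, hb (mk x) = mk (ch x) := fun x => QuotientGroup.map_mk _ _ _ _ x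
  have hbi : ∀ (j : ℕ) (x : K), ((ch^[j] x : K) : 𝔾) = h ^ j * x * (h ^ j)⁻¹ := by
    intro j
    induction j with
    | zero => intro x; simp
    | succ j ih =>
      intro x
      rw [Function.iterate_succ_apply']
      show h * ((ch^[j] x : K) : 𝔾) * h⁻¹ = _
      rw [ih, pow_succ']
      group
  have hbit : ∀ (j : ℕ) (x : K), hb^[j] (mk x) = mk (ch^[j] x) := by
    intro j
    induction j with
    | zero => intro x; rfl
    | succ j ih =>
      intro x
      rw [Function.iterate_succ_apply', Function.iterate_succ_apply', ih, hbm]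
  have hbn : ∀ a, hb^[n] a = a := by
    intro a
    obtain ⟨x, rfl⟩ := hmks a
    rw [hbit]
    have h1 : mk (ch^[n] x * x⁻¹) = 1 := by
      rw [hmk1]
      push_cast
      rw [hbi]
      have h2 : h ^ n * (x : 𝔾) * (h ^ n)⁻¹ * (x : 𝔾)⁻¹ = ⁅h ^ n, (x : 𝔾)⁆ := by
        rw [commutatorElement_def]
      rw [h2]
      exact comm_mem_of_gens hg hn x.2
    rw [map_mul, map_inv, mul_inv_eq_one] at h1
    exact h1
  -- the subgroup `W' = W₁ ⊓ K'`
  have hKo0 : K'.relIndex K ≠ 0 := by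
    intro h0
    rw [h0] at hpK
    exact hpK (dvd_zero p)
  have hW10 : W₁.relIndex K ≠ 0 := by
    have h2 : W.subgroupOf K ≤ W₁.subgroupOf K := by
      intro x hx
      rw [mem_subgroupOf] at hx ⊢
      exact hWW1 hx
    have h3 := index_dvd_of_le h2
    intro h4
    have h5 : (W₁.subgroupOf K).index = 0 := h4
    rw [h5, zero_dvd_iff] at h3
    exact hW0 h3
  have hW'0 : (W₁ ⊓ K').relIndex K' ≠ 0 := by
    rw [inf_relIndex_right]
    intro h4
    apply hW10
    exact relIndex_eq_zero_of_le_right hKK h4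
  have hC := hR (W₁ ⊓ K') inf_le_right ?_ hW'0 ?_ ?_ ?_
  · -- counting
    have h1 : (W₁ ⊓ K').relIndex K' * K'.relIndex K = (W₁ ⊓ K').relIndex K :=
      relIndex_mul_relIndex _ _ _ inf_le_right hKK
    have h2 : (W₁ ⊓ K').relIndex W₁ * W₁.relIndex K = (W₁ ⊓ K').relIndex K :=
      relIndex_mul_relIndex _ _ _ inf_le_left hW1K
    have h3 : Nat.Coprime (W₁.relIndex K) (K'.relIndex K) := by
      have hpg : IsPGroup p (K ⧸ W.subgroupOf K) := fun a => ⟨1, by rw [pow_one]; exact hexp a⟩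
      obtain ⟨k, hk⟩ := IsPGroup.iff_card.1 hpg
      have h4 : W.relIndex K = p ^ k := hk
      have h5 : W₁.relIndex K ∣ p ^ k := by
        rw [← h4]
        refine index_dvd_of_le ?_
        intro x hx
        rw [mem_subgroupOf] at hx ⊢
        exact hWW1 hx
      exact Nat.Coprime.coprime_dvd_left h5
        (Nat.Coprime.pow_left k ((Nat.Prime.coprime_iff_not_dvd hp.out).2 hpK))
    have h4 : W₁.relIndex K * K'.relIndex K ∣ (W₁ ⊓ K').relIndex K :=
      Nat.Coprime.mul_dvd_of_dvd_of_dvd h3 (Dvd.intro_left _ h2) (Dvd.intro_left _ h1)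
    rw [← h1] at h4
    have h5 := Nat.le_of_dvd (Nat.pos_of_ne_zero (mul_ne_zero hW'0 hKo0)) h4
    have h6 := Nat.le_of_mul_le_mul_right h5 (Nat.pos_of_ne_zero hKo0)
    exact h6.trans hC
  · -- open
    have h1 : W ⊓ K' ≤ W₁ ⊓ K' := inf_le_inf_right _ hWW1
    refine Subgroup.isOpen_mono h1 ?_
    show IsOpen ((W : Set 𝔾) ∩ (K' : Set 𝔾))
    exact hWo.inter hKo
  · -- generators
    intro x hx
    have h1 : x ∈ gens p I K := by
      rcases hx with (⟨a, ha, rfl⟩ | ⟨a, ha, b, hb, rfl⟩) | ⟨hx, w, hw⟩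
      · exact Or.inl (Or.inl ⟨a, hKK ha, rfl⟩)
      · exact Or.inl (Or.inr ⟨a, hKK ha, b, hKK hb, rfl⟩)
      · exact Or.inr ⟨hKK hx, w, hw⟩
    refine ⟨hWW1 (hg h1), ?_⟩
    rcases hx with (⟨a, ha, rfl⟩ | ⟨a, ha, b, hb, rfl⟩) | ⟨hx, w, hw⟩
    · exact K'.pow_mem ha p
    · rw [commutatorElement_def]
      exact K'.mul_mem (K'.mul_mem (K'.mul_mem ha hb) (K'.inv_mem ha)) (K'.inv_mem hb)
    · exact hx
  · -- stable
    rintro x ⟨⟨hx, hx'⟩, hxK'⟩
    refine ⟨⟨hhK x hx, ?_⟩, hhK' x hxK'⟩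
    have h1 : ⁅h, h * x * h⁻¹⁆ = h * ⁅h, x⁆ * h⁻¹ := by
      simp only [commutatorElement_def]
      group
    rw [h1]
    exact hWh _ hx'
  · -- no fixed points
    rintro x hx ⟨⟨h1, h2⟩, -⟩
    have hxK := hKK hx
    refine ⟨⟨hxK, ?_⟩, hx⟩
    have h3 := unip hcomm p n hp.out hpn hexp hb hbn (mk ⟨x, hxK⟩) ?_
    · rw [hbm, ← mul_inv_eq_one, ← map_inv, ← map_mul, hmk1] at h3
      have h4 : ((ch ⟨x, hxK⟩ * (⟨x, hxK⟩ : K)⁻¹ : K) : 𝔾) = ⁅h, x⁆ := by
        rw [commutatorElement_def]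
        rfl
      rw [h4] at h3
      exact h3
    · have h4 : hb (mk ⟨x, hxK⟩) * (mk ⟨x, hxK⟩)⁻¹ = mk ⟨⁅h, x⁆, h1⟩ := by
        rw [hbm, ← map_inv, ← map_mul]
        congr 1
      rw [h4, hbm, ← mul_inv_eq_one, ← map_inv, ← map_mul, hmk1]
      have h5 : ((ch ⟨⁅h, x⁆, h1⟩ * (⟨⁅h, x⁆, h1⟩ : K)⁻¹ : K) : 𝔾) = ⁅h, ⁅h, x⁆⁆ := by
        rw [commutatorElement_def h ⁅h, x⁆]
        rfl
      rw [h5]
      exact h2

end Pool.Agent.Run7.h594.UM
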