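import Pool.Agent.Run7.h759.UM.Iface

/-!
# UM, pieces P1 and P2 (helper594)
-/

set_option autoImplicit false

namespace Pool.Agent.Run7.h594.UM

open Subgroup Pool.Agent.Q60.MU Pool.Agent.Run7.h759.UM
open scoped commutatorElement

variable {𝔾 : Type} [Group 𝔾]

theorem comm_mem_of_gens {p : ℕ} {Ω : Type} {I : Ω → Subgroup 𝔾} {K W : Subgroup 𝔾}
    (hg : gens p I K ⊆ W) {a b : 𝔾} (ha : a ∈ K) (hb : b ∈ K) : ⁅a, b⁆ ∈ W :=
  hg (Or.inl (Or.inr ⟨a, ha, b, hb, rfl⟩))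

theorem pow_mem_of_gens {p : ℕ} {Ω : Type} {I : Ω → Subgroup 𝔾} {K W : Subgroup 𝔾}
    (hg : gens p I K ⊆ W) {a : 𝔾} (ha : a ∈ K) : a ^ p ∈ W :=
  hg (Or.inl (Or.inl ⟨a, ha, rfl⟩))

theorem conj_mem_of_gens {p : ℕ} {Ω : Type} {I : Ω → Subgroup 𝔾} {K W : Subgroup 𝔾}
    (hWK : W ≤ K) (hg : gens p I K ⊆ W) {a b : 𝔾} (ha : a ∈ K) (hb : b ∈ W) : a * b * a⁻¹ ∈ W := by
  have h1 : a * b * a⁻¹ = ⁅a, b⁆ * b := by
    rw [commutatorElement_def]
    group
  rw [h1]
  exact W.mul_mem (comm_mem_of_gens hg ha (hWK hb)) hb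

theorem normal_of_gens {p : ℕ} {Ω : Type} {I : Ω → Subgroup 𝔾} {K W : Subgroup 𝔾}
    (hWK : W ≤ K) (hg : gens p I K ⊆ W) : (W.subgroupOf K).Normal := by
  refine ⟨fun q hq l => ?_⟩
  rw [mem_subgroupOf] at hq ⊢
  exact conj_mem_of_gens hWK hg l.2 hq

theorem card_sup_le_T {A : Type} [CommGroup A] [Finite A] {Ω : Type} (J : Ω → Subgroup A)
    (n : ℕ) (T : Finset Ω) (hn : ∀ w ∈ T, Nat.card (J w) ≤ n) :
    Nat.card (T.sup J : Subgroup A) ≤ n ^ T.card := by
  classical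
  induction T using Finset.induction_on with
  | empty => simp
  | insert a s ha ih =>
    rw [Finset.sup_insert, Finset.card_insert_of_notMem ha, pow_succ']
    exact (card_sup_le' _ _).trans (Nat.mul_le_mul (hn a (Finset.mem_insert_self _ _))
      (ih fun w hw => hn w (Finset.mem_insert_of_mem hw)))

theorem P2 : S_comm := by
  classical
  intro 𝔾 _ p _ Ω I K O W T C hKO hOK hWK hW0 hg hOW hTO hOT hT
  have hN : (W.subgroupOf K).Normal := normal_of_gens hWK hg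
  have hfi : (W.subgroupOf K).FiniteIndex := ⟨hW0⟩
  have hfin : Finite (K ⧸ W.subgroupOf K) := inferInstance
  have hcomm : ∀ a b : K ⧸ W.subgroupOf K, a * b = b * a := by
    intro a b
    obtain ⟨x, rfl⟩ := QuotientGroup.mk_surjective a
    obtain ⟨y, rfl⟩ := QuotientGroup.mk_surjective b
    rw [← QuotientGroup.mk_mul, ← QuotientGroup.mk_mul, QuotientGroup.eq, mem_subgroupOf]
    have h1 : (((x * y)⁻¹ * (y * x) : K) : 𝔾) = ⁅((y : 𝔾))⁻¹, ((x : 𝔾))⁻¹⁆ := by
      rw [commutatorElement_def]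
      push_cast
      group
    rw [h1]
    exact comm_mem_of_gens hg (K.inv_mem y.2) (K.inv_mem x.2)
  let cg : CommGroup (K ⧸ W.subgroupOf K) :=
    { (inferInstance : Group (K ⧸ W.subgroupOf K)) with mul_comm := hcomm }
  let mk : K →* K ⧸ W.subgroupOf K := QuotientGroup.mk' (W.subgroupOf K)
  have hmk1 : ∀ x : K, mk x = 1 ↔ (x : 𝔾) ∈ W := by
    intro x
    have h1 : mk x = 1 ↔ x ∈ W.subgroupOf K := QuotientGroup.eq_one_iff x
    rw [h1, mem_subgroupOf]
  have hcK : ∀ c ∈ O, ∀ x ∈ K, ⁅c, x⁆ ∈ K := by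
    intro c hc x hx
    rw [commutatorElement_def]
    exact K.mul_mem (hOK c hc x hx) (K.inv_mem hx)
  -- the homomorphism `x ↦ [c, x]`
  have hφ : ∀ c : 𝔾, c ∈ O → ∃ φ : K →* K ⧸ W.subgroupOf K, ∀ (x : K) (hx : ⁅c, (x : 𝔾)⁆ ∈ K),
      φ x = mk ⟨⁅c, (x : 𝔾)⁆, hx⟩ := by
    intro c hc
    refine ⟨MonoidHom.mk' (fun x => mk ⟨⁅c, (x : 𝔾)⁆, hcK c hc x x.2⟩) ?_, fun x hx => rfl⟩
    intro x y
    have h1 : (⟨⁅c, ((x * y : K) : 𝔾)⁆, hcK c hc _ (x * y).2⟩ : K) =
        ⟨⁅c, (x : 𝔾)⁆, hcK c hc x x.2⟩ * (x * ⟨⁅c, (y : 𝔾)⁆, hcK c hc y y.2⟩ * x⁻¹) := by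
      apply Subtype.ext
      push_cast
      rw [commutatorElement_def, commutatorElement_def, commutatorElement_def]
      group
    rw [h1, map_mul, map_mul, map_mul, hcomm (mk x) _, mul_assoc, ← map_mul, mul_inv_cancel,
      map_one, mul_one]
  choose φ hφ using hφ
  let J : 𝔾 → Subgroup (K ⧸ W.subgroupOf K) := fun c => if h : c ∈ O then (φ c h).range else ⊥
  have hJ : ∀ c ∈ T, Nat.card (J c) ≤ C := by
    intro c hc
    have hcO := hTO c hc
    obtain ⟨W₁, hW1, hW2, hW3, hW4⟩ := hT c hc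
    have e1 : J c = (φ c hcO).range := dif_pos hcO
    rw [e1]
    have hker : W₁.subgroupOf K ≤ (φ c hcO).ker := by
      intro x hx
      rw [mem_subgroupOf] at hx
      rw [MonoidHom.mem_ker, hφ c hcO x (hcK c hcO x x.2), hmk1]
      exact hW3 _ hx
    have h1 : (W₁.subgroupOf K).index ≠ 0 := by
      have h2 : W.subgroupOf K ≤ W₁.subgroupOf K := by
        intro x hx
        rw [mem_subgroupOf] at hx ⊢
        exact hW1 hx
      have h3 := index_dvd_of_le h2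
      intro h4
      rw [h4, zero_dvd_iff] at h3
      exact hW0 h3
    have h2 : (φ c hcO).ker.index = Nat.card (φ c hcO).range := index_ker _
    rw [← h2]
    refine le_trans ?_ hW4
    exact Nat.le_of_dvd (Nat.pos_of_ne_zero h1) (index_dvd_of_le hker)
  let Q' : Subgroup (K ⧸ W.subgroupOf K) := T.sup J
  have hQ' : Nat.card Q' ≤ C ^ T.card := card_sup_le_T J C T hJ
  let Q : Subgroup 𝔾 := (Q'.comap mk).map K.subtype
  have hQK : Q ≤ K := by
    rintro _ ⟨x, _, rfl⟩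
    exact x.2
  have hWQ : W ≤ Q := by
    intro x hx
    refine ⟨⟨x, hWK hx⟩, ?_, rfl⟩
    show mk _ ∈ Q'
    rw [(hmk1 _).2 hx]
    exact Q'.one_mem
  have hQmem : ∀ x : K, mk x ∈ Q' → (x : 𝔾) ∈ Q := fun x hx => ⟨x, hx, rfl⟩
  refine ⟨Q, hWQ, hQK, ?_, ?_⟩
  · let S : Subgroup 𝔾 :=
      { carrier := {l | l ∈ O ∧ ∀ k ∈ K, ⁅l, k⁆ ∈ Q}
        one_mem' := ⟨O.one_mem, fun k _ => by rw [commutatorElement_one_left]; exact Q.one_mem⟩
        mul_mem' := by
          rintro a b ⟨ha, ha'⟩ ⟨hb, hb'⟩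
          refine ⟨O.mul_mem ha hb, fun k hk => ?_⟩
          have h1 : ⁅a * b, k⁆ = ⁅a, ⁅b, k⁆⁆ * ⁅b, k⁆ * ⁅a, k⁆ := by
            simp only [commutatorElement_def]
            group
          rw [h1]
          exact Q.mul_mem (Q.mul_mem (ha' _ (hcK b hb k hk)) (hb' k hk)) (ha' k hk)
        inv_mem' := by
          rintro a ⟨ha, ha'⟩
          refine ⟨O.inv_mem ha, fun k hk => ?_⟩
          have h1 : ⁅a⁻¹, k⁆ = ⁅a, a⁻¹ * k * (a⁻¹)⁻¹⁆⁻¹ := by
            simp only [commutatorElement_def]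
            group
          rw [h1]
          exact Q.inv_mem (ha' _ (hOK a⁻¹ (O.inv_mem ha) k hk)) }
    have hKS : K ≤ S := by
      intro l hl
      exact ⟨hKO hl, fun k hk => hWQ (comm_mem_of_gens hg hl hk)⟩
    have hTS : closure (T : Set 𝔾) ≤ S := by
      rw [closure_le]
      intro c hc
      have hcT : c ∈ T := hc
      refine ⟨hTO c hcT, fun k hk => ?_⟩
      have h1 := hφ c (hTO c hcT) ⟨k, hk⟩ (hcK c (hTO c hcT) k hk)
      refine hQmem ⟨⁅c, k⁆, hcK c (hTO c hcT) k hk⟩ ?_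
      rw [← h1]
      have h2 : J c ≤ Q' := Finset.le_sup (f := J) hcT
      apply h2
      have e1 : J c = (φ c (hTO c hcT)).range := dif_pos _
      rw [e1]
      exact ⟨_, rfl⟩
    intro l hl k hk
    exact ((hOT.trans (sup_le hKS hTS)) hl).2 k hk
  · have h1 : W.relIndex Q * Q.relIndex K = W.relIndex K := relIndex_mul_relIndex W Q K hWQ hQK
    have h2 : Q.relIndex K = Q'.index := by
      have h3 : Q.subgroupOf K = Q'.comap mk := by
        ext x
        rw [mem_subgroupOf]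
        constructor
        · rintro ⟨y, hy, hyx⟩
          have : y = x := Subtype.ext hyx
          rw [← this]
          exact hy
        · intro hx
          exact hQmem x hx
      show (Q.subgroupOf K).index = Q'.index
      rw [h3]
      exact index_comap_of_surjective Q' (QuotientGroup.mk'_surjective _)
    have h3 : W.relIndex K = Nat.card Q' * Q'.index := by
      rw [card_mul_index]
      rfl
    rw [h2, h3] at h1
    have h4 : Q'.index ≠ 0 := index_ne_zero_of_finite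
    have h5 := Nat.eq_of_mul_eq_mul_right (Nat.pos_of_ne_zero h4) h1
    rw [h5]
    exact hQ'

end Pool.Agent.Run7.h594.UM
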