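import Pool.Agent.Run7.h759.UM.Iface

/-!
# UM, piece P7, part a: lifting of inertia elements to the field of algebraic numbers (helper594)
-/

set_option autoImplicit false

namespace Pool.Agent.Run7.h594.UM

open Pool.Agent.Q60.MU NumberField IntermediateField
open scoped Pointwise

theorem val_sub_lt (A : ValuationSubring Qb) {a b : Qb} (ha : a ∈ A.nonunits)
    (hb : b ∈ A.nonunits) : a - b ∈ A.nonunits := sub_mem ha hb

/-- every element of a valuation ring of `Qb` is a quotient of algebraic integers with a unit as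
denominator -/
theorem exists_quot (A : ValuationSubring Qb) (hA : ∃ p : ℕ, p ≠ 0 ∧ (p : Qb) ∈ A.nonunits)
    (x : Qb) (hx : x ∈ A) : ∃ a b : Qb, IsIntegral ℤ a ∧ IsIntegral ℤ b ∧ b ∉ A.nonunits ∧
      x * b = a := by
  have hxa : IsIntegral ℚ x := Algebra.IsIntegral.isIntegral x
  have hfd : FiniteDimensional ℚ ℚ⟮x⟯ := adjoin.finiteDimensional hxa
  have hnf : NumberField ℚ⟮x⟯ := ⟨⟩
  have hint : ∀ a : 𝓞 ℚ⟮x⟯, algebraMap (𝓞 ℚ⟮x⟯) ℚ⟮x⟯ a ∈ A.comap (algebraMap ℚ⟮x⟯ Qb) := by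
    intro a
    rw [ValuationSubring.mem_comap]
    apply integral_mem A
    exact (RingOfIntegers.isIntegral_coe a).map ((algebraMap ℚ⟮x⟯ Qb).toIntAlgHom)
  have hne : A.comap (algebraMap ℚ⟮x⟯ Qb) ≠ ⊤ := by
    intro htop
    obtain ⟨p, hp0, hp⟩ := hA
    have h2 : ((p : ℚ⟮x⟯))⁻¹ ∈ A.comap (algebraMap ℚ⟮x⟯ Qb) := by rw [htop]; trivial
    rw [ValuationSubring.mem_comap, map_inv₀, map_natCast] at h2
    rw [ValuationSubring.mem_nonunits_iff_or] at hp
    rcases hp with h3 | h3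
    · exact hp0 (by exact_mod_cast h3)
    · exact h3 h2
  have hz : (⟨x, mem_adjoin_simple_self ℚ x⟩ : ℚ⟮x⟯) ∈ A.comap (algebraMap ℚ⟮x⟯ Qb) := by
    rw [ValuationSubring.mem_comap]
    exact hx
  obtain ⟨a, b, hb, hab⟩ := (Pool.Agent.H639R3.mem_iff_of_cent _ hint hne _).1 hz
  rw [Pool.Agent.H639R3.mem_cent, Pool.Agent.H639R3.comap_val_lt_one] at hb
  refine ⟨algebraMap ℚ⟮x⟯ Qb (a : ℚ⟮x⟯), algebraMap ℚ⟮x⟯ Qb (b : ℚ⟮x⟯), ?_, ?_, ?_, ?_⟩
  · exact (RingOfIntegers.isIntegral_coe a).map ((algebraMap ℚ⟮x⟯ Qb).toIntAlgHom)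
  · exact (RingOfIntegers.isIntegral_coe b).map ((algebraMap ℚ⟮x⟯ Qb).toIntAlgHom)
  · rw [ValuationSubring.mem_nonunits_iff]
    exact hb
  · have h1 := congrArg (algebraMap ℚ⟮x⟯ Qb) hab
    rw [map_mul] at h1
    exact h1

/-- an automorphism which acts trivially on the residues of the algebraic integers is in the
inertia group -/
theorem mem_inertia_of (A : ValuationSubring Qb) (hA : ∃ p : ℕ, p ≠ 0 ∧ (p : Qb) ∈ A.nonunits)
    (σ : Gal(Qb/ℚ)) (h : ∀ z : Qb, IsIntegral ℤ z → σ z - z ∈ A.nonunits) : σ ∈ inertia A := by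
  have key : ∀ σ : Gal(Qb/ℚ), (∀ z : Qb, IsIntegral ℤ z → σ z - z ∈ A.nonunits) → ∀ x ∈ A,
      σ x ∈ A ∧ σ x - x ∈ A.nonunits := by
    intro σ h x hx
    obtain ⟨a, b, ha, hb, hbu, hab⟩ := exists_quot A hA x hx
    have hbA : b ∈ A := integral_mem A hb
    have haA : a ∈ A := integral_mem A ha
    have hb0 : b ≠ 0 := by
      rintro rfl
      exact hbu (zero_mem _)
    have hb1 : b⁻¹ ∈ A := by
      rw [ValuationSubring.mem_nonunits_iff_or, not_or, not_not] at hbu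
      exact hbu.2
    have hσbu : σ b ∉ A.nonunits := by
      intro h1
      have h2 : b = σ b - (σ b - b) := by ring
      rw [h2] at hbu
      exact hbu (sub_mem h1 (h b hb))
    have hσb0 : σ b ≠ 0 := by
      intro h1
      rw [h1] at hσbu
      exact hσbu (zero_mem _)
    have hσb1 : (σ b)⁻¹ ∈ A := by
      rw [ValuationSubring.mem_nonunits_iff_or, not_or, not_not] at hσbu
      exact hσbu.2
    have hσint : ∀ z : Qb, IsIntegral ℤ z → IsIntegral ℤ (σ z) := fun z hz =>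
      hz.map (σ : Qb →ₐ[ℚ] Qb).toRingHom.toIntAlgHom
    have hσaA : σ a ∈ A := integral_mem A (hσint a ha)
    have e1 : x = a * b⁻¹ := by
      rw [← hab, mul_assoc, mul_inv_cancel₀ hb0, mul_one]
    have e2 : σ x = σ a * (σ b)⁻¹ := by
      rw [← hab, map_mul, mul_assoc, mul_inv_cancel₀ hσb0, mul_one]
    refine ⟨by rw [e2]; exact A.mul_mem _ _ hσaA hσb1, ?_⟩
    have e3 : σ x - x = ((σ a - a) * b - (σ b - b) * a) * ((σ b)⁻¹ * b⁻¹) := by
      rw [e2]
      nth_rewrite 1 [e1]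
      field_simp
      ring
    rw [e3]
    exact mul_nonunits (sub_mem (mul_nonunits (h a ha) hbA) (mul_nonunits (h b hb) haA))
      (A.mul_mem _ _ hσb1 hb1)
  have hinv : ∀ z : Qb, IsIntegral ℤ z → σ⁻¹ z - z ∈ A.nonunits := by
    intro z hz
    have h1 : IsIntegral ℤ (σ⁻¹ z) := hz.map ((σ⁻¹ : Gal(Qb/ℚ)) : Qb →ₐ[ℚ] Qb).toRingHom.toIntAlgHom
    have h2 := h _ h1
    have h3 : σ (σ⁻¹ z) = z := by
      rw [← AlgEquiv.mul_apply, mul_inv_cancel, AlgEquiv.one_apply]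
    rw [h3] at h2
    have h4 : σ⁻¹ z - z = -(z - σ⁻¹ z) := by ring
    rw [h4]
    exact neg_mem h2
  refine ⟨?_, fun x hx => (key σ h x hx).2⟩
  ext x
  rw [ValuationSubring.mem_pointwise_smul_iff_inv_smul_mem]
  constructor
  · intro hx
    have h1 := (key σ h _ hx).1
    have h2 : σ (σ⁻¹ • x) = x := by
      show σ (σ⁻¹ x) = x
      rw [← AlgEquiv.mul_apply, mul_inv_cancel, AlgEquiv.one_apply]
    rw [h2] at h1
    exact h1
  · intro hx
    exact (key σ⁻¹ hinv x hx).1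

end Pool.Agent.Run7.h594.UM
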