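import Pool.Agent.Run7.h594.UM.P7a

/-!
# UM, piece P7, part b: lifting of inertia elements to the field of algebraic numbers (helper594)
-/

set_option autoImplicit false

namespace Pool.Agent.Run7.h594.UM

open Pool.Agent.Q60.MU NumberField IntermediateField
open scoped Pointwise

/-- an automorphism of a field of finite degree which acts trivially on the residues of a prime can be
extended to an element of an inertia group -/
theorem lift_inertia (M : IntermediateField ℚ Qb) (hfd : FiniteDimensional ℚ M)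
    (P : Ideal (𝓞 M)) [hP : P.IsPrime] (hP0 : P ≠ ⊥) (σ₀ : Gal(Qb/ℚ)) (g : 𝓞 M → 𝓞 M)
    (hg : ∀ a : 𝓞 M, g a - a ∈ P) (hσ : ∀ a : 𝓞 M, σ₀ (a : M) = ((g a : 𝓞 M) : M)) :
    ∃ (A : ValuationSubring Qb) (σ : Gal(Qb/ℚ)), σ ∈ inertia A ∧ ∀ x ∈ M, σ x = σ₀ x := by
  have hnf : NumberField M := ⟨⟩
  have hgal : IsGalois M Qb := inferInstance
  let A := 𝓞 M
  let F := M
  let L := Qb
  let _ : Algebra (𝓞 M) Qb := ((algebraMap M Qb).comp (algebraMap (𝓞 M) M)).toAlgebra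
  have htow : IsScalarTower (𝓞 M) M Qb := .of_algebraMap_eq fun _ => rfl
  have halgA : Algebra.IsAlgebraic (𝓞 M) Qb :=
    (IsFractionRing.comap_isAlgebraic_iff (A := 𝓞 M) (K := M) (C := Qb)).mpr inferInstance
  have hinjAL : Function.Injective (algebraMap (𝓞 M) Qb) := by
    rw [IsScalarTower.algebraMap_eq (𝓞 M) M Qb]
    exact (algebraMap M Qb).injective.comp (IsFractionRing.injective (𝓞 M) M)
  have htf : IsDomain (integralClosure (𝓞 M) Qb) := inferInstance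
  have hFr : IsFractionRing (integralClosure (𝓞 M) Qb) Qb :=
    integralClosure.isFractionRing_of_algebraic (fun x hx => hinjAL (by rw [hx, map_zero]))
  let _ : MulSemiringAction (Qb ≃ₐ[M] Qb) (integralClosure (𝓞 M) Qb) :=
    IsIntegralClosure.MulSemiringAction (𝓞 M) M Qb (integralClosure (𝓞 M) Qb)
  have hsmul : ∀ (σ : Qb ≃ₐ[M] Qb) (c : integralClosure (𝓞 M) Qb),
      ((σ • c : integralClosure (𝓞 M) Qb) : Qb) = σ c :=
    fun σ c => algebraMap_galRestrict_apply (𝓞 M) σ c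
  let _ : TopologicalSpace (integralClosure (𝓞 M) Qb) := ⊥
  have hdisc : DiscreteTopology (integralClosure (𝓞 M) Qb) := ⟨rfl⟩
  have hcont : ContinuousSMul (Qb ≃ₐ[M] Qb) (integralClosure (𝓞 M) Qb) := by
    refine (continuousSMul_iff_stabilizer_isOpen (M := Qb ≃ₐ[M] Qb)
      (X := integralClosure (𝓞 M) Qb)).mpr fun c => ?_
    have h1 := stabilizer_isOpen_of_isIntegral (K := M) (L := Qb) (c : Qb)
    convert h1 using 1
    ext σ
    simp only [SetLike.mem_coe, MulAction.mem_stabilizer_iff]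
    constructor
    · intro h2
      have h3 := congrArg (fun z : integralClosure (𝓞 M) Qb => (z : Qb)) h2
      simp only [hsmul] at h3
      exact h3
    · intro h2
      apply Subtype.ext
      rw [hsmul]
      exact h2
  have hcomm : SMulCommClass (Qb ≃ₐ[M] Qb) (𝓞 M) (integralClosure (𝓞 M) Qb) := by
    constructor
    intro σ a c
    apply Subtype.ext
    rw [hsmul]
    change σ (a • (c : Qb)) = a • ((σ • c : integralClosure (𝓞 M) Qb) : Qb)
    rw [hsmul, Algebra.smul_def, Algebra.smul_def, map_mul]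
    congr 1
    rw [IsScalarTower.algebraMap_apply (𝓞 M) M Qb, AlgEquiv.commutes]
  have hinv : Algebra.IsInvariant (𝓞 M) (integralClosure (𝓞 M) Qb) (Qb ≃ₐ[M] Qb) := by
    refine ⟨fun b hb => ?_⟩
    have hb2 : ∀ σ : Qb ≃ₐ[M] Qb, σ (b : Qb) = b := fun σ => by rw [← hsmul, hb σ]
    obtain ⟨y, hy⟩ :=
      (InfiniteGalois.mem_range_algebraMap_iff_fixed (k := M) (K := Qb) (b : Qb)).mpr hb2
    have hy2 : IsIntegral (𝓞 M) y := by
      have := b.2
      rw [mem_integralClosure_iff, ← hy] at this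
      exact (isIntegral_algebraMap_iff (algebraMap M Qb).injective).mp this
    obtain ⟨a, ha⟩ := IsIntegrallyClosed.isIntegral_iff.mp hy2
    refine ⟨a, ?_⟩
    apply Subtype.ext
    change algebraMap (𝓞 M) Qb a = (b : Qb)
    rw [← hy, ← ha, ← IsScalarTower.algebraMap_apply]
  -- integrality over `ℤ` and over `𝓞 M`
  have hIZ : ∀ z : Qb, IsIntegral ℤ z → z ∈ integralClosure (𝓞 M) Qb := by
    intro z hz
    rw [mem_integralClosure_iff]
    have : IsScalarTower ℤ (𝓞 M) Qb := IsScalarTower.of_algebraMap_eq' (Subsingleton.elim _ _)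
    exact hz.tower_top
  have hIZ' : ∀ z : integralClosure (𝓞 M) Qb, IsIntegral ℤ (z : Qb) := by
    intro z
    have : IsScalarTower ℤ (𝓞 M) Qb := IsScalarTower.of_algebraMap_eq' (Subsingleton.elim _ _)
    have h1 := z.2
    rw [mem_integralClosure_iff] at h1
    have h2 : Algebra.IsIntegral ℤ (𝓞 M) := inferInstance
    exact isIntegral_trans (R := ℤ) (A := 𝓞 M) _ h1
  have hσint : ∀ (σ : Gal(Qb/ℚ)) (z : Qb), IsIntegral ℤ z → IsIntegral ℤ (σ z) := fun σ z hz =>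
    hz.map (σ : Qb →ₐ[ℚ] Qb).toRingHom.toIntAlgHom
  -- the prime over `P`
  have hint : Algebra.IsIntegral (𝓞 M) (integralClosure (𝓞 M) Qb) := inferInstance
  have hinj2 : Function.Injective (algebraMap (𝓞 M) (integralClosure (𝓞 M) Qb)) := by
    intro a b hab
    exact hinjAL (congrArg (fun z : integralClosure (𝓞 M) Qb => (z : Qb)) hab)
  obtain ⟨𝔮, -, h𝔮p, h𝔮⟩ := Ideal.exists_ideal_over_prime_of_isIntegral
    (S := integralClosure (𝓞 M) Qb) P ⊥ (by
      rw [← RingHom.ker_eq_comap_bot, (RingHom.injective_iff_ker_eq_bot _).1 hinj2]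
      exact bot_le)
  have hunder : 𝔮.under (𝓞 M) = P := h𝔮
  have hlo : 𝔮.LiesOver P := ⟨hunder.symm⟩
  have hmemP : ∀ a : 𝓞 M, algebraMap (𝓞 M) (integralClosure (𝓞 M) Qb) a ∈ 𝔮 ↔ a ∈ P := by
    intro a
    rw [← hunder]
    rfl
  -- the action of `Gal(Qb/ℚ)` on the algebraic integers
  have hmemσ : ∀ (σ : Gal(Qb/ℚ)) (c : integralClosure (𝓞 M) Qb),
      σ (c : Qb) ∈ integralClosure (𝓞 M) Qb := fun σ c => hIZ _ (hσint σ _ (hIZ' c))
  let act : Gal(Qb/ℚ) → (integralClosure (𝓞 M) Qb) →+* (integralClosure (𝓞 M) Qb) := fun σ =>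
    { toFun := fun c => ⟨σ c, hmemσ σ c⟩
      map_one' := Subtype.ext (map_one σ)
      map_mul' := fun _ _ => Subtype.ext (map_mul σ _ _)
      map_zero' := Subtype.ext (map_zero σ)
      map_add' := fun _ _ => Subtype.ext (map_add σ _ _) }
  have hact : ∀ (σ : Gal(Qb/ℚ)) (c : integralClosure (𝓞 M) Qb),
      ((act σ c : integralClosure (𝓞 M) Qb) : Qb) = σ c := fun _ _ => rfl
  have hactmul : ∀ (σ τ : Gal(Qb/ℚ)) (c : integralClosure (𝓞 M) Qb),
      act (σ * τ) c = act σ (act τ c) := fun _ _ _ => rfl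
  have hactone : ∀ (c : integralClosure (𝓞 M) Qb), act 1 c = c := fun _ => rfl
  have hactA : ∀ a : 𝓞 M, act σ₀ (algebraMap (𝓞 M) (integralClosure (𝓞 M) Qb) a) =
      algebraMap (𝓞 M) (integralClosure (𝓞 M) Qb) (g a) := by
    intro a
    apply Subtype.ext
    rw [hact]
    exact hσ a
  have hacth : ∀ (h : Qb ≃ₐ[M] Qb) (c : integralClosure (𝓞 M) Qb),
      act (h.restrictScalars ℚ) c = h • c := by
    intro h c
    apply Subtype.ext
    rw [hact, hsmul]
    rfl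
  have hhA : ∀ (h : Qb ≃ₐ[M] Qb) (a : 𝓞 M),
      h • (algebraMap (𝓞 M) (integralClosure (𝓞 M) Qb) a) =
        algebraMap (𝓞 M) (integralClosure (𝓞 M) Qb) a := by
    intro h a
    exact smul_algebraMap h a
  -- make `σ₀` fix `𝔮`
  have hprime1 : (𝔮.comap (act σ₀)).IsPrime := Ideal.comap_isPrime _ _
  have hunder1 : 𝔮.under (𝓞 M) = (𝔮.comap (act σ₀)).under (𝓞 M) := by
    rw [hunder]
    ext a
    rw [Ideal.under_def, Ideal.mem_comap, Ideal.mem_comap, hactA, hmemP]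
    constructor
    · intro ha
      have h1 : g a = (g a - a) + a := by ring
      rw [h1]
      exact P.add_mem (hg a) ha
    · intro ha
      have h1 : a = g a - (g a - a) := by ring
      rw [h1]
      exact P.sub_mem ha (hg a)
  obtain ⟨h, hh⟩ := Algebra.IsInvariant.exists_smul_of_under_eq_of_profinite (A := 𝓞 M)
    (B := integralClosure (𝓞 M) Qb) (G := Qb ≃ₐ[M] Qb) 𝔮 (𝔮.comap (act σ₀)) hunder1
  set σ₁ : Gal(Qb/ℚ) := σ₀ * h.restrictScalars ℚ with hσ₁
  have hσ₁q : ∀ c, act σ₁ c ∈ 𝔮 ↔ c ∈ 𝔮 := by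
    intro c
    rw [hσ₁, hactmul, hacth]
    have h1 : h • c ∈ 𝔮.comap (act σ₀) ↔ c ∈ 𝔮 := by
      rw [hh]
      exact Ideal.smul_mem_pointwise_smul_iff
    exact h1
  have hσ₁A : ∀ a : 𝓞 M, act σ₁ (algebraMap (𝓞 M) (integralClosure (𝓞 M) Qb) a) =
      algebraMap (𝓞 M) (integralClosure (𝓞 M) Qb) (g a) := by
    intro a
    rw [hσ₁, hactmul, hacth, hhA, hactA]
  let e : (integralClosure (𝓞 M) Qb) ≃+* (integralClosure (𝓞 M) Qb) :=
    RingEquiv.ofRingHom (act σ₁) (act σ₁⁻¹) (by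
      ext c
      change act σ₁ (act σ₁⁻¹ c) = (c : Qb)
      rw [← hactmul, mul_inv_cancel, hactone]) (by
      ext c
      change act σ₁⁻¹ (act σ₁ c) = (c : Qb)
      rw [← hactmul, inv_mul_cancel, hactone])
  have he : ∀ c, e c = act σ₁ c := fun _ => rfl
  have hqe : 𝔮 = 𝔮.map (e : (integralClosure (𝓞 M) Qb) →+* (integralClosure (𝓞 M) Qb)) := by
    have h1 : 𝔮.comap (e : (integralClosure (𝓞 M) Qb) →+* (integralClosure (𝓞 M) Qb)) = 𝔮 := by
      ext c
      rw [Ideal.mem_comap]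
      exact hσ₁q c
    conv_rhs => rw [← h1]
    exact (Ideal.map_comap_of_surjective
      (e : (integralClosure (𝓞 M) Qb) →+* (integralClosure (𝓞 M) Qb)) e.surjective 𝔮).symm
  let f : (integralClosure (𝓞 M) Qb ⧸ 𝔮) ≃+* (integralClosure (𝓞 M) Qb ⧸ 𝔮) :=
    Ideal.quotientEquiv 𝔮 𝔮 e hqe
  have hf : ∀ c, f (Ideal.Quotient.mk 𝔮 c) = Ideal.Quotient.mk 𝔮 (act σ₁ c) := fun _ => rfl
  let f' : (integralClosure (𝓞 M) Qb ⧸ 𝔮) ≃ₐ[𝓞 M ⧸ P] (integralClosure (𝓞 M) Qb ⧸ 𝔮) :=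
    AlgEquiv.ofRingEquiv (f := f) (by
      intro a
      obtain ⟨a, rfl⟩ := Ideal.Quotient.mk_surjective a
      change f (Ideal.Quotient.mk 𝔮 (algebraMap (𝓞 M) (integralClosure (𝓞 M) Qb) a)) =
        Ideal.Quotient.mk 𝔮 (algebraMap (𝓞 M) (integralClosure (𝓞 M) Qb) a)
      rw [hf, hσ₁A, Ideal.Quotient.eq, ← map_sub, hmemP]
      exact hg a)
  obtain ⟨⟨h', hh'q⟩, hh'⟩ := Ideal.Quotient.stabilizerHom_surjective_of_profinite
    (G := Qb ≃ₐ[M] Qb) P 𝔮 f'
  have hh'1 : ∀ c, h' • c - act σ₁ c ∈ 𝔮 := by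
    intro c
    have h1 := DFunLike.congr_fun hh' (Ideal.Quotient.mk 𝔮 c)
    rw [← Ideal.Quotient.eq]
    exact h1
  set σ : Gal(Qb/ℚ) := (h'⁻¹).restrictScalars ℚ * σ₁ with hσdef
  have hσres : ∀ c, act σ c - c ∈ 𝔮 := by
    intro c
    have h1 : h' • (act σ c - c) ∈ 𝔮 := by
      rw [hσdef, hactmul, hacth, smul_sub, smul_inv_smul]
      have h2 := hh'1 c
      have h3 : act σ₁ c - h' • c = -(h' • c - act σ₁ c) := by ring
      rw [h3]
      exact 𝔮.neg_mem h2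
    have h4 : h' • 𝔮 = 𝔮 := hh'q
    rw [← h4] at h1
    exact Ideal.smul_mem_pointwise_smul_iff.1 h1
  have hσA : ∀ a : 𝓞 M, σ (a : M) = σ₀ (a : M) := by
    intro a
    have h1 : act σ (algebraMap (𝓞 M) (integralClosure (𝓞 M) Qb) a) =
        act σ₀ (algebraMap (𝓞 M) (integralClosure (𝓞 M) Qb) a) := by
      rw [hσdef, hactmul, hσ₁A, hacth, hhA, hactA]
    exact congrArg (fun z : integralClosure (𝓞 M) Qb => (z : Qb)) h1
  -- the valuation ring
  obtain ⟨w, hw1, hw2⟩ := Ideal.image_subset_nonunits_valuationSubring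
    (A := (integralClosure (𝓞 M) Qb).toSubring) 𝔮 h𝔮p.ne_top
  have hwq : ∀ c ∈ 𝔮, (c : Qb) ∈ w.nonunits := fun c hc => hw2 ⟨c, hc, rfl⟩
  refine ⟨w, σ, ?_, ?_⟩
  · apply mem_inertia_of
    · refine ⟨Ideal.absNorm P, ?_, ?_⟩
      · rw [Ne, Ideal.absNorm_eq_zero_iff]
        exact hP0
      · have h1 : algebraMap (𝓞 M) (integralClosure (𝓞 M) Qb) (Ideal.absNorm P : 𝓞 M) ∈ 𝔮 := by
          rw [hmemP]
          exact Ideal.absNorm_mem P
        have h2 := hwq _ h1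
        rw [map_natCast] at h2
        exact h2
    · intro z hz
      exact hwq _ (hσres ⟨z, hIZ z hz⟩)
  · intro x hx
    obtain ⟨a, b, hb, hab⟩ := IsFractionRing.div_surjective (A := 𝓞 M) (⟨x, hx⟩ : M)
    have h1 : x = ((a : M) : Qb) / ((b : M) : Qb) := by
      have h2 := congrArg (fun z : M => (z : Qb)) hab
      simp only at h2
      rw [← h2]
      push_cast
      rfl
    rw [h1, map_div₀, map_div₀, hσA, hσA]

end Pool.Agent.Run7.h594.UM
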